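import Pool.Agent.Q226.OO.Stab

/-! The inequalities and the points on them. -/

set_option autoImplicit false

open Finset

namespace Pool.Agent.Q226.OO

/-- the sum over blocks of length seven -/
lemma sum_blocks (f : ℕ → ℝ) (k : ℕ) : ∑ i ∈ range (7 * k + 2), f i =
    ∑ j ∈ range k, (f (7 * j) + f (7 * j + 1) + f (7 * j + 2) + f (7 * j + 3) + f (7 * j + 4) +
      f (7 * j + 5) + f (7 * j + 6)) + f (7 * k) + f (7 * k + 1) := by
  have h : ∀ k, ∑ i ∈ range (7 * k), f i =
      ∑ j ∈ range k, (f (7 * j) + f (7 * j + 1) + f (7 * j + 2) + f (7 * j + 3) + f (7 * j + 4) +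
        f (7 * j + 5) + f (7 * j + 6)) := by
    intro k
    induction k with
    | zero => simp
    | succ k ih =>
      rw [show 7 * (k + 1) = 7 * k + 1 + 1 + 1 + 1 + 1 + 1 + 1 by ring]
      rw [Finset.sum_range_succ, Finset.sum_range_succ, Finset.sum_range_succ,
        Finset.sum_range_succ, Finset.sum_range_succ, Finset.sum_range_succ,
        Finset.sum_range_succ, ih, Finset.sum_range_succ _ k]
      ring
  rw [Finset.sum_range_succ, Finset.sum_range_succ, h]

/-- the support of the inequality -/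
def inT (k : ℕ) (s : ℕ → Bool) (i : ℕ) : Prop :=
  (i / 7 < k ∧ (i % 7 = 1 ∨ i % 7 = 3 ∨ i % 7 = 4 ∨ i % 7 = 6 ∨ (i % 7 = 5 ∧ s (i / 7) = false) ∨
    (i % 7 = 2 ∧ s (i / 7) = true))) ∨ i = 7 * k + 1

lemma inT_block {k : ℕ} {s : ℕ → Bool} {j a : ℕ} (hj : j < k) (ha : a < 7) :
    inT k s (7 * j + a) ↔ (a = 1 ∨ a = 3 ∨ a = 4 ∨ a = 6 ∨ (a = 5 ∧ s j = false) ∨
      (a = 2 ∧ s j = true)) := by
  have h1 : (7 * j + a) / 7 = j := by omega
  have h2 : (7 * j + a) % 7 = a := by omega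
  unfold inT
  rw [h1, h2]
  constructor
  · rintro (⟨-, h⟩ | h)
    · exact h
    · omega
  · exact fun h => Or.inl ⟨hj, h⟩

open Classical in
/-- the left-hand side of the inequality -/
noncomputable def lT (k : ℕ) (s : ℕ → Bool) : (ZMod (7 * k + 2) → ℝ) →ₗ[ℝ] ℝ :=
  ∑ i ∈ (range (7 * k + 2)).filter (inT k s), LinearMap.proj (i : ZMod (7 * k + 2))

lemma lT_apply (k : ℕ) (s : ℕ → Bool) (y : ZMod (7 * k + 2) → ℝ) :
    lT k s y = ∑ j ∈ range k, (y ((7 * j + 1 : ℕ) : ZMod (7 * k + 2)) +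
      y ((7 * j + 3 : ℕ) : ZMod (7 * k + 2)) + y ((7 * j + 4 : ℕ) : ZMod (7 * k + 2)) +
      y ((7 * j + 6 : ℕ) : ZMod (7 * k + 2)) +
      (if s j = true then y ((7 * j + 2 : ℕ) : ZMod (7 * k + 2)) else
        y ((7 * j + 5 : ℕ) : ZMod (7 * k + 2)))) + y ((7 * k + 1 : ℕ) : ZMod (7 * k + 2)) := by
  classical
  unfold lT
  rw [LinearMap.sum_apply, Finset.sum_filter, sum_blocks]
  simp only [LinearMap.proj_apply]
  have h1 : ¬ inT k s (7 * k) := by
    unfold inT
    omega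
  have h2 : inT k s (7 * k + 1) := Or.inr rfl
  rw [if_neg h1, if_pos h2, add_zero]
  congr 1
  refine Finset.sum_congr rfl fun j hj => ?_
  rw [Finset.mem_range] at hj
  have e0 : ¬ inT k s (7 * j) := by
    have := inT_block (s := s) hj (show 0 < 7 by norm_num)
    rw [Nat.add_zero] at this
    rw [this]
    omega
  have e1 : inT k s (7 * j + 1) := by rw [inT_block hj (by norm_num)]; simp
  have e3 : inT k s (7 * j + 3) := by rw [inT_block hj (by norm_num)]; simp
  have e4 : inT k s (7 * j + 4) := by rw [inT_block hj (by norm_num)]; simp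
  have e6 : inT k s (7 * j + 6) := by rw [inT_block hj (by norm_num)]; simp
  have e2 : inT k s (7 * j + 2) ↔ s j = true := by rw [inT_block hj (by norm_num)]; simp
  have e5 : inT k s (7 * j + 5) ↔ s j = false := by rw [inT_block hj (by norm_num)]; simp
  rw [if_neg e0, if_pos e1, if_pos e3, if_pos e4, if_pos e6]
  simp only [e2, e5]
  cases s j
  · simp
    ring
  · simp
    ring

/-- the inequality is valid -/
lemma lT_le {k : ℕ} (s : ℕ → Bool) {y : ZMod (7 * k + 2) → ℝ} (hy : Stab (7 * k + 2) y) :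
    lT k s y ≤ 2 * k := by
  obtain ⟨h01, hst, -⟩ := hy
  have hnn : ∀ t, 0 ≤ y t := fun t => by rcases h01 t with a | a <;> rw [a]; norm_num
  have hle : ∀ t, y t ≤ 1 := fun t => by rcases h01 t with a | a <;> rw [a]; norm_num
  have hc : ∀ t, y t + y (t + 1) + y (t + 2) ≤ 1 := by
    intro t
    rcases h01 t with a | a
    · rcases h01 (t + 1) with b | b
      · rw [a, b]
        have := hle (t + 2)
        linarith
      · have h2 := (hst _ b).1
        rw [add_assoc, one_add_one_eq_two] at h2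
        rw [a, b, h2]
        norm_num
    · obtain ⟨b, c⟩ := hst _ a
      rw [a, b, c]
      norm_num
  have hcN : ∀ i : ℕ, y (i : ZMod (7 * k + 2)) + y ((i + 1 : ℕ) : ZMod (7 * k + 2)) +
      y ((i + 2 : ℕ) : ZMod (7 * k + 2)) ≤ 1 := by
    intro i
    have := hc (i : ZMod (7 * k + 2))
    push_cast
    exact this
  -- integrality
  have hint : ∃ m : ℕ, lT k s y = m := by
    classical
    unfold lT
    rw [LinearMap.sum_apply]
    have : ∀ i ∈ (range (7 * k + 2)).filter (inT k s), ∃ m : ℕ,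
        (LinearMap.proj (i : ZMod (7 * k + 2)) : (ZMod (7 * k + 2) → ℝ) →ₗ[ℝ] ℝ) y = m := by
      intro i _
      rcases h01 (i : ZMod (7 * k + 2)) with a | a
      · exact ⟨0, by simpa using a⟩
      · exact ⟨1, by simpa using a⟩
    choose! g hg using this
    refine ⟨∑ i ∈ (range (7 * k + 2)).filter (inT k s), g i, ?_⟩
    push_cast
    exact Finset.sum_congr rfl hg
  have hmain : 2 * lT k s y ≤ 4 * k + 1 := by
    rw [lT_apply]
    have hblock : ∀ j ∈ range k, 2 * (y ((7 * j + 1 : ℕ) : ZMod (7 * k + 2)) +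
        y ((7 * j + 3 : ℕ) : ZMod (7 * k + 2)) + y ((7 * j + 4 : ℕ) : ZMod (7 * k + 2)) +
        y ((7 * j + 6 : ℕ) : ZMod (7 * k + 2)) +
        (if s j = true then y ((7 * j + 2 : ℕ) : ZMod (7 * k + 2)) else
          y ((7 * j + 5 : ℕ) : ZMod (7 * k + 2)))) + y ((7 * (j + 1) + 1 : ℕ) : ZMod (7 * k + 2)) ≤
        4 + y ((7 * j + 1 : ℕ) : ZMod (7 * k + 2)) := by
      intro j _
      have c1 := hcN (7 * j + 1)
      have c2 := hcN (7 * j + 2)
      have c3 := hcN (7 * j + 3)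
      have c4 := hcN (7 * j + 4)
      have c6 := hcN (7 * j + 6)
      have n2 := hnn ((7 * j + 2 : ℕ) : ZMod (7 * k + 2))
      have n5 := hnn ((7 * j + 5 : ℕ) : ZMod (7 * k + 2))
      have n7 := hnn ((7 * j + 7 : ℕ) : ZMod (7 * k + 2))
      rw [show 7 * (j + 1) + 1 = 7 * j + 8 by ring]
      simp only [Nat.add_assoc, Nat.reduceAdd] at c1 c2 c3 c4 c6 ⊢
      cases s j
      · simp only [Bool.false_eq_true, if_false]
        linarith
      · simp only [if_true]
        linarith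
    have hsum := Finset.sum_le_sum hblock
    rw [Finset.sum_add_distrib, Finset.sum_add_distrib, ← Finset.mul_sum, Finset.sum_const,
      Finset.card_range, nsmul_eq_mul] at hsum
    have htel : ∑ j ∈ range k, y ((7 * (j + 1) + 1 : ℕ) : ZMod (7 * k + 2)) +
        y ((7 * 0 + 1 : ℕ) : ZMod (7 * k + 2)) =
        ∑ j ∈ range k, y ((7 * j + 1 : ℕ) : ZMod (7 * k + 2)) +
        y ((7 * k + 1 : ℕ) : ZMod (7 * k + 2)) := by
      rw [← Finset.sum_range_succ' (fun j => y ((7 * j + 1 : ℕ) : ZMod (7 * k + 2))),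
        Finset.sum_range_succ]
    have hlast := hcN (7 * k + 1)
    have hz : ((7 * k + 1 + 1 : ℕ) : ZMod (7 * k + 2)) = 0 := ZMod.natCast_self _
    have hz1 : ((7 * k + 1 + 2 : ℕ) : ZMod (7 * k + 2)) = ((7 * 0 + 1 : ℕ) : ZMod (7 * k + 2)) := by
      have : ((7 * k + 2 + 1 : ℕ) : ZMod (7 * k + 2)) = ((7 * k + 2 : ℕ) : ZMod (7 * k + 2)) + 1 := by
        push_cast
        rfl
      rw [show 7 * k + 1 + 2 = 7 * k + 2 + 1 by ring, this, ZMod.natCast_self]
      simp
    rw [hz, hz1] at hlast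
    have n0 := hnn (0 : ZMod (7 * k + 2))
    linarith
  obtain ⟨m, hm⟩ := hint
  rw [hm] at hmain ⊢
  have : 2 * m ≤ 4 * k + 1 := by exact_mod_cast hmain
  have : m ≤ 2 * k := by omega
  exact_mod_cast this

section vec

variable {k : ℕ}

open Classical in
/-- the vector of a set of places -/
noncomputable def vec (k : ℕ) (m : ℕ → Prop) : ZMod (7 * k + 2) → ℝ :=
  fun t => if m t.val then 1 else 0

lemma vec_cast (m : ℕ → Prop) [DecidablePred m] {i : ℕ} (hi : i < 7 * k + 2) :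
    vec k m (i : ZMod (7 * k + 2)) = if m i then 1 else 0 := by
  unfold vec
  rw [ZMod.val_natCast_of_lt hi]
  congr

/-- gaps at least three -/
def Gaps (k : ℕ) (m : ℕ → Prop) : Prop :=
  ∀ i, i < 7 * k + 2 → m i → (i + 1 < 7 * k + 2 → ¬ m (i + 1)) ∧ (i + 2 < 7 * k + 2 → ¬ m (i + 2)) ∧
    (i + 1 = 7 * k + 2 → ¬ m 0 ∧ ¬ m 1) ∧ (i + 2 = 7 * k + 2 → ¬ m 0)

lemma stab_vec {m : ℕ → Prop} (h : Gaps k m) (hne : ∃ i < 7 * k + 2, m i) (hk : 1 ≤ k) :
    Stab (7 * k + 2) (vec k m) := by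
  classical
  have hcast : ∀ t : ZMod (7 * k + 2), ((t.val : ℕ) : ZMod (7 * k + 2)) = t := fun t =>
    ZMod.natCast_zmod_val t
  have hz : ((7 * k + 2 : ℕ) : ZMod (7 * k + 2)) = 0 := ZMod.natCast_self _
  refine ⟨fun t => ?_, fun t ht => ?_, ?_⟩
  · unfold vec
    split_ifs
    · exact Or.inr rfl
    · exact Or.inl rfl
  · obtain ⟨i, hi, rfl⟩ : ∃ i < 7 * k + 2, ((i : ℕ) : ZMod (7 * k + 2)) = t :=
      ⟨t.val, ZMod.val_lt t, hcast t⟩
    rw [vec_cast m hi] at ht
    have hmi : m i := by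
      by_contra hc
      rw [if_neg hc] at ht
      norm_num at ht
    obtain ⟨a, b, c, d⟩ := h i hi hmi
    constructor
    · have e1 : (i : ZMod (7 * k + 2)) + 1 = ((i + 1 : ℕ) : ZMod (7 * k + 2)) := by push_cast; rfl
      rw [e1]
      rcases lt_or_ge (i + 1) (7 * k + 2) with h1 | h1
      · rw [vec_cast m h1, if_neg (a h1)]
      · have h2 : i + 1 = 7 * k + 2 := by omega
        rw [h2, hz]
        have := vec_cast (k := k) m (show 0 < 7 * k + 2 by omega)
        rw [Nat.cast_zero] at this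
        rw [this, if_neg (c h2).1]
    · have e1 : (i : ZMod (7 * k + 2)) + 2 = ((i + 2 : ℕ) : ZMod (7 * k + 2)) := by push_cast; rfl
      rw [e1]
      rcases lt_or_ge (i + 2) (7 * k + 2) with h1 | h1
      · rw [vec_cast m h1, if_neg (b h1)]
      · rcases Nat.eq_or_lt_of_le h1 with h2 | h2
        · rw [← h2, hz]
          have := vec_cast (k := k) m (show 0 < 7 * k + 2 by omega)
          rw [Nat.cast_zero] at this
          rw [this, if_neg (d h2.symm)]
        · have h3 : i + 1 = 7 * k + 2 := by omega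
          have e2 : ((i + 2 : ℕ) : ZMod (7 * k + 2)) = ((1 : ℕ) : ZMod (7 * k + 2)) := by
            rw [show i + 2 = 7 * k + 2 + 1 by omega, Nat.cast_add, hz, zero_add]
          rw [e2, vec_cast m (show 1 < 7 * k + 2 by omega), if_neg (c h3).2]
  · obtain ⟨i, hi, hm⟩ := hne
    exact ⟨(i : ZMod (7 * k + 2)), by rw [vec_cast m hi, if_pos hm]⟩

/-- the unit vectors -/
noncomputable def E (k : ℕ) (a : ℕ) : ZMod (7 * k + 2) → ℝ := Pi.single (a : ZMod (7 * k + 2)) 1

lemma vec_insert {m m' : ℕ → Prop} {a : ℕ} (ha : a < 7 * k + 2) (hma : ¬ m a)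
    (h : ∀ i < 7 * k + 2, m' i ↔ m i ∨ i = a) : vec k m' = vec k m + E k a := by
  classical
  funext t
  obtain ⟨i, hi, rfl⟩ : ∃ i < 7 * k + 2, ((i : ℕ) : ZMod (7 * k + 2)) = t :=
    ⟨t.val, ZMod.val_lt t, ZMod.natCast_zmod_val t⟩
  rw [Pi.add_apply, vec_cast m' hi, vec_cast m hi]
  have hEa : E k a (i : ZMod (7 * k + 2)) = if i = a then 1 else 0 := by
    unfold E
    by_cases hia : i = a
    · rw [hia, Pi.single_eq_same, if_pos rfl]
    · rw [Pi.single_eq_of_ne, if_neg hia]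
      intro h1
      apply hia
      have := congrArg ZMod.val h1
      rwa [ZMod.val_natCast_of_lt hi, ZMod.val_natCast_of_lt ha] at this
  rw [hEa]
  by_cases hia : i = a
  · subst hia
    rw [if_pos ((h i hi).mpr (Or.inr rfl)), if_neg hma, if_pos rfl, zero_add]
  · rw [if_neg hia, add_zero]
    by_cases hm : m i
    · rw [if_pos hm, if_pos ((h i hi).mpr (Or.inl hm))]
    · rw [if_neg hm, if_neg (fun h' => ((h i hi).mp h').elim hm hia)]

end vec

end Pool.Agent.Q226.OO
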