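import Mathlib

/-!
# The cyclic on/off polytope: definitions
-/

set_option autoImplicit false

open Finset

namespace Pool.Agent.Q226.OO

/-- The bounds: an on-interval that starts at `t` has length in `[α t, β t]`, an off-interval that
starts at `t` has length in `[γ t, δ t]`; the bounds are weakly monotone. Time is `ZMod n`. -/
structure Params (n : ℕ) where
  α : ZMod n → ℕ
  β : ZMod n → ℕ
  γ : ZMod n → ℕ
  δ : ZMod n → ℕ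
  on_bounds : ∀ t, 1 ≤ α t ∧ α t ≤ β t ∧ β t ≤ n - 1
  off_bounds : ∀ t, 1 ≤ γ t ∧ γ t ≤ δ t ∧ δ t ≤ n - 1
  mono : ∀ t, α t ≤ α (t + 1) + 1 ∧ β t ≤ β (t + 1) + 1 ∧ γ t ≤ γ (t + 1) + 1 ∧
    δ t ≤ δ (t + 1) + 1

/-- `ℝ ^ (2 n)`: the pairs `(y, z)` of a state vector and a start-up vector. -/
abbrev Pair (n : ℕ) : Type := (ZMod n → ℝ) × (ZMod n → ℝ)

/-- The set `Z` of the feasible 0/1-pairs `(y, z)`. -/
def OnOff (n : ℕ) (p : Params n) : Set (Pair n) :=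
  {v | (∀ t, (v.1 t = 0 ∨ v.1 t = 1) ∧ (v.2 t = 0 ∨ v.2 t = 1)) ∧
    1 ≤ ∑ t ∈ range n, v.1 (t : ZMod n) ∧ ∑ t ∈ range n, v.1 (t : ZMod n) ≤ n - 1 ∧
    ∀ t, (v.2 t = 1 ↔ v.1 (t - 1) = 0 ∧ v.1 t = 1) ∧
      (v.1 t - v.1 (t - 1) = 1 → (∀ i : ℕ, i ≤ p.α t - 1 → v.1 (t + i) = 1) ∧
        ∃ i : ℕ, p.α t ≤ i ∧ i ≤ p.β t ∧ v.1 (t + i) = 0) ∧
      (v.1 (t - 1) - v.1 t = 1 → (∀ i : ℕ, i ≤ p.γ t - 1 → v.1 (t + i) = 0) ∧
        ∃ i : ℕ, p.γ t ≤ i ∧ i ≤ p.δ t ∧ v.1 (t + i) = 1)}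

/-- `F` is a facet of the polytope `P`: a nonempty set of the form `{x ∈ P | l x = c}` for a linear
inequality `l x ≤ c` which is valid on `P`, of dimension `dim P - 1`. -/
def IsFacet {E : Type} [AddCommGroup E] [Module ℝ E] (P F : Set E) : Prop :=
  F.Nonempty ∧ (∃ (l : E →ₗ[ℝ] ℝ) (c : ℝ), (∀ x ∈ P, l x ≤ c) ∧ F = {x | x ∈ P ∧ l x = c}) ∧
    Module.finrank ℝ (vectorSpan ℝ F) + 1 = Module.finrank ℝ (vectorSpan ℝ P)

/-- The constant bounds `α = β = 1`, `γ = 2`, `δ = n - 1`. -/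
def cst (n : ℕ) (hn : 3 ≤ n) : Params n where
  α := fun _ => 1
  β := fun _ => 1
  γ := fun _ => 2
  δ := fun _ => n - 1
  on_bounds := fun _ => ⟨le_rfl, le_rfl, by omega⟩
  off_bounds := fun _ => ⟨by norm_num, by omega, le_rfl⟩
  mono := fun _ => ⟨by omega, by omega, by omega, by omega⟩

end Pool.Agent.Q226.OO
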