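import Pool.Agent.Q226.OO.Span

/-! Exponentially many facets. -/

set_option autoImplicit false

open Finset

namespace Pool.Agent.Q226.OO

variable {k : ℕ}

/-- the polytope -/
def Pol (k : ℕ) (hk : 1 ≤ k) : Set (Pair (7 * k + 2)) :=
  convexHull ℝ (OnOff (7 * k + 2) (cst (7 * k + 2) (by omega)))

/-- the functional on pairs -/
noncomputable def lP (k : ℕ) (s : ℕ → Bool) : Pair (7 * k + 2) →ₗ[ℝ] ℝ :=
  (lT k s).comp (LinearMap.fst ℝ _ _)

/-- the faces -/
def Fc (k : ℕ) (hk : 1 ≤ k) (s : ℕ → Bool) : Set (Pair (7 * k + 2)) :=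
  {x | x ∈ Pol k hk ∧ lP k s x = 2 * k}

/-- the diagonal -/
noncomputable def diag (k : ℕ) : (ZMod (7 * k + 2) → ℝ) →ₗ[ℝ] Pair (7 * k + 2) :=
  LinearMap.prod LinearMap.id LinearMap.id

lemma diag_apply (u : ZMod (7 * k + 2) → ℝ) : diag k u = (u, u) := rfl

lemma diag_inj : Function.Injective (diag k) := fun _ _ h => (Prod.mk.inj h).1

lemma pol_eq {hk : 1 ≤ k} {x : Pair (7 * k + 2)} (hx : x ∈ Pol k hk) : x.2 = x.1 := by
  have hc : Convex ℝ {x : Pair (7 * k + 2) | x.2 = x.1} := by
    intro x hx y hy a b _ _ _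
    have hx' : x.2 = x.1 := hx
    have hy' : y.2 = y.1 := hy
    show (a • x + b • y).2 = (a • x + b • y).1
    rw [Prod.snd_add, Prod.smul_snd, Prod.smul_snd, Prod.fst_add, Prod.smul_fst, Prod.smul_fst,
      hx', hy']
  exact convexHull_min (fun v hv => (stab_of_mem _ hv).1) hc hx

lemma pol_le {hk : 1 ≤ k} (s : ℕ → Bool) {x : Pair (7 * k + 2)} (hx : x ∈ Pol k hk) :
    lP k s x ≤ 2 * k :=
  convexHull_min (fun _ hv => lT_le s (stab_of_mem _ hv).2)
    (convex_halfSpace_le (lP k s).isLinear _) hx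

lemma pol_of_stab {hk : 1 ≤ k} {y : ZMod (7 * k + 2) → ℝ} (hy : Stab (7 * k + 2) y) :
    ((y, y) : Pair (7 * k + 2)) ∈ Pol k hk := subset_convexHull ℝ _ (mem_of_stab _ hy)

lemma fc_of_tight {hk : 1 ≤ k} {s : ℕ → Bool} {y : ZMod (7 * k + 2) → ℝ} (hy : Tight k s y) :
    ((y, y) : Pair (7 * k + 2)) ∈ Fc k hk s := ⟨pol_of_stab hy.1, hy.2⟩

lemma decomp (u : ZMod (7 * k + 2) → ℝ) :
    ∑ i ∈ range (7 * k + 2), u (i : ZMod (7 * k + 2)) • E k i = u := by
  funext t
  obtain ⟨j, hj, rfl⟩ : ∃ j < 7 * k + 2, ((j : ℕ) : ZMod (7 * k + 2)) = t :=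
    ⟨t.val, ZMod.val_lt t, ZMod.natCast_zmod_val t⟩
  rw [Finset.sum_apply, Finset.sum_eq_single j]
  · simp [E]
  · intro i hi hij
    rw [Pi.smul_apply]
    unfold E
    rw [Pi.single_eq_of_ne, smul_zero]
    intro h
    apply hij
    have := congrArg ZMod.val h
    rw [ZMod.val_natCast_of_lt hj, ZMod.val_natCast_of_lt (Finset.mem_range.mp hi)] at this
    exact this.symm
  · intro h
    exact absurd (Finset.mem_range.mpr hj) h

/-- the span of the differences on the face -/
lemma span_fc (hk : 1 ≤ k) (s : ℕ → Bool) :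
    vectorSpan ℝ (Fc k hk s) = (LinearMap.ker (lT k s)).map (diag k) := by
  classical
  apply le_antisymm
  · rw [vectorSpan_def, Submodule.span_le]
    rintro _ ⟨x, hx, y, hy, rfl⟩
    refine ⟨x.1 - y.1, ?_, ?_⟩
    · show lT k s (x.1 - y.1) = 0
      rw [map_sub]
      have h1 : lT k s x.1 = 2 * k := hx.2
      have h2 : lT k s y.1 = 2 * k := hy.2
      rw [h1, h2, sub_self]
    · rw [diag_apply]
      refine Prod.ext rfl ?_
      show x.1 - y.1 = x.2 - y.2
      rw [pol_eq hx.1, pol_eq hy.1]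
  · rw [Submodule.map_le_iff_le_comap]
    obtain ⟨D, hDdef⟩ : ∃ D, D = (vectorSpan ℝ (Fc k hk s)).comap (diag k) := ⟨_, rfl⟩
    rw [← hDdef]
    have hD : ∀ y y', Tight k s y → Tight k s y' → y - y' ∈ D := by
      intro y y' hy hy'
      rw [hDdef, Submodule.mem_comap, map_sub]
      exact vsub_mem_vectorSpan ℝ (fc_of_tight hy) (fc_of_tight hy')
    have h1 := conn D hD hk
    have h2 := other D hD hk
    intro u hu
    have hu0 : ∑ i ∈ (range (7 * k + 2)).filter (inT k s), u (i : ZMod (7 * k + 2)) = 0 := by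
      have : lT k s u = 0 := hu
      unfold lT at this
      rw [LinearMap.sum_apply] at this
      simpa using this
    rw [← decomp u, ← Finset.sum_filter_add_sum_filter_not _ (inT k s)]
    refine D.add_mem ?_ ?_
    · have e : ∑ i ∈ (range (7 * k + 2)).filter (inT k s), u (i : ZMod (7 * k + 2)) • E k i =
          ∑ i ∈ (range (7 * k + 2)).filter (inT k s),
            u (i : ZMod (7 * k + 2)) • (E k i - E k (7 * k + 1)) := by
        simp only [smul_sub]
        rw [Finset.sum_sub_distrib, ← Finset.sum_smul, hu0, zero_smul, sub_zero]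
      rw [e]
      refine D.sum_mem fun i hi => D.smul_mem _ ?_
      rw [Finset.mem_filter, Finset.mem_range] at hi
      exact h1 i hi.1 hi.2
    · refine D.sum_mem fun i hi => D.smul_mem _ ?_
      rw [Finset.mem_filter, Finset.mem_range] at hi
      exact h2 i hi.1 hi.2

/-- the span of the differences on the polytope -/
lemma span_pol (hk : 1 ≤ k) : vectorSpan ℝ (Pol k hk) = (⊤ : Submodule ℝ _).map (diag k) := by
  classical
  apply le_antisymm
  · rw [vectorSpan_def, Submodule.span_le]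
    rintro _ ⟨x, hx, y, hy, rfl⟩
    refine ⟨x.1 - y.1, trivial, ?_⟩
    rw [diag_apply]
    refine Prod.ext rfl ?_
    show x.1 - y.1 = x.2 - y.2
    rw [pol_eq hx, pol_eq hy]
  · rw [Submodule.map_le_iff_le_comap]
    obtain ⟨D, hDdef⟩ : ∃ D, D = (vectorSpan ℝ (Pol k hk)).comap (diag k) := ⟨_, rfl⟩
    rw [← hDdef]
    have hDS : ∀ y y', Stab (7 * k + 2) y → Stab (7 * k + 2) y' → y - y' ∈ D := by
      intro y y' hy hy'
      rw [hDdef, Submodule.mem_comap, map_sub]
      exact vsub_mem_vectorSpan ℝ (pol_of_stab hy) (pol_of_stab hy')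
    have hD : ∀ y y', Tight k (fun _ => false) y → Tight k (fun _ => false) y' → y - y' ∈ D :=
      fun y y' hy hy' => hDS y y' hy.1 hy'.1
    have h1 := conn D hD hk
    have h2 := other D hD hk
    have h3 : E k (7 * k + 1) ∈ D := by
      have e := vec_insert (k := k) (m := fun i => i = 4) (m' := fun i => i = 4 ∨ i = 7 * k + 1)
        (a := 7 * k + 1) (by omega) (by omega) (fun i _ => Iff.rfl)
      have h4 := hDS _ _ (stab_vec (k := k) (m := fun i => i = 4 ∨ i = 7 * k + 1)
        (by intro i hi hm; dsimp only at hm ⊢; omega) ⟨4, by omega, Or.inl rfl⟩ hk)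
        (stab_vec (k := k) (m := fun i => i = 4)
          (by intro i hi hm; dsimp only at hm ⊢; omega) ⟨4, by omega, rfl⟩ hk)
      rw [e, add_sub_cancel_left] at h4
      exact h4
    intro u _
    rw [← decomp u]
    refine D.sum_mem fun i hi => D.smul_mem _ ?_
    rw [Finset.mem_range] at hi
    by_cases hT : inT k (fun _ => false) i
    · have := D.add_mem (h1 i hi hT) h3
      rwa [sub_add_cancel] at this
    · exact h2 i hi hT

lemma finrank_map_diag (S : Submodule ℝ (ZMod (7 * k + 2) → ℝ)) :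
    Module.finrank ℝ (S.map (diag k)) = Module.finrank ℝ S :=
  (LinearEquiv.finrank_eq (Submodule.equivMapOfInjective (diag k) diag_inj S)).symm

lemma lT_E (s : ℕ → Bool) : lT k s (E k (7 * k + 1)) = 1 := by
  classical
  unfold lT
  rw [LinearMap.sum_apply, Finset.sum_eq_single (7 * k + 1)]
  · simp [E]
  · intro i hi hne
    rw [Finset.mem_filter, Finset.mem_range] at hi
    rw [LinearMap.proj_apply]
    unfold E
    rw [Pi.single_eq_of_ne]
    intro h
    apply hne
    have := congrArg ZMod.val h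
    rwa [ZMod.val_natCast_of_lt hi.1, ZMod.val_natCast_of_lt (by omega)] at this
  · intro h
    exact absurd (Finset.mem_filter.mpr ⟨Finset.mem_range.mpr (by omega), Or.inr rfl⟩) h

/-- the faces are facets -/
theorem facet (hk : 1 ≤ k) (s : ℕ → Bool) : IsFacet (Pol k hk) (Fc k hk s) := by
  refine ⟨⟨_, fc_of_tight (tight_L s false hk)⟩, ⟨lP k s, 2 * k, fun x hx => pol_le s hx, rfl⟩, ?_⟩
  rw [span_fc, span_pol, finrank_map_diag, finrank_map_diag, finrank_top]
  have h := LinearMap.finrank_range_add_finrank_ker (lT k s)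
  have hr : LinearMap.range (lT k s) = ⊤ := by
    rw [LinearMap.range_eq_top]
    intro c
    exact ⟨c • E k (7 * k + 1), by rw [map_smul, lT_E, smul_eq_mul, mul_one]⟩
  rw [hr, finrank_top, Module.finrank_self] at h
  omega

lemma Fc_ne {hk : 1 ≤ k} {s s' : ℕ → Bool} {i : ℕ} (hi : i < k) (h : s i = false)
    (h' : s' i = true) : Fc k hk s ≠ Fc k hk s' := by
  intro he
  have h1 : Tight k s (vec k (U k i 1 5 5)) :=
    tight_U s hi (by omega) (by omega) (by omega) (by omega) (by omega)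
      (by rw [h]; simp [W]; norm_num)
  have h2 := fc_of_tight (hk := hk) h1
  rw [he] at h2
  have h3 : lT k s' (vec k (U k i 1 5 5)) = 2 * k := h2.2
  rw [lT_U s' 1 5 5 hi, h'] at h3
  have h4 : W (fun a => a = 1 ∨ a = 5 ∨ a = 5) true = 1 := by simp [W]
  rw [h4] at h3
  linarith

/-- extension of a choice -/
def ext (f : Fin k → Bool) : ℕ → Bool := fun j => if h : j < k then f ⟨j, h⟩ else false

theorem many (hk : 1 ≤ k) : ∃ 𝓕 : Finset (Set (Pair (7 * k + 2))), 𝓕.card = 2 ^ k ∧
    ∀ F ∈ 𝓕, IsFacet (Pol k hk) F := by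
  classical
  refine ⟨univ.image fun f : Fin k → Bool => Fc k hk (ext f), ?_, ?_⟩
  · rw [Finset.card_image_of_injective, Finset.card_univ, Fintype.card_fun, Fintype.card_bool,
      Fintype.card_fin]
    intro f f' he
    by_contra hne
    obtain ⟨i, hi⟩ := Function.ne_iff.mp hne
    have e1 : ext f i = f i := by simp [ext]
    have e2 : ext f' i = f' i := by simp [ext]
    rcases Bool.eq_false_or_eq_true (f i) with h | h
    · have h' : f' i = false := by
        rw [h] at hi
        exact (Bool.eq_false_or_eq_true (f' i)).resolve_left (fun h' => hi h'.symm)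
      exact Fc_ne (hk := hk) i.2 (e2.trans h') (e1.trans h) he.symm
    · have h' : f' i = true := by
        rw [h] at hi
        exact (Bool.eq_false_or_eq_true (f' i)).resolve_right (fun h' => hi h'.symm)
      exact Fc_ne (hk := hk) i.2 (e1.trans h) (e2.trans h') he
  · intro F hF
    obtain ⟨f, -, rfl⟩ := Finset.mem_image.mp hF
    exact facet hk _

open Filter Topology in
lemma poly_lt (q : Polynomial ℝ) : ∃ k : ℕ, 1 ≤ k ∧ q.eval ((7 * k + 2 : ℕ) : ℝ) < 2 ^ k := by
  obtain ⟨r, hr⟩ : ∃ r : Polynomial ℝ, r = q.comp (7 * Polynomial.X + 2) := ⟨_, rfl⟩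
  have hev : ∀ k : ℕ, q.eval ((7 * k + 2 : ℕ) : ℝ) = r.eval (k : ℝ) := by
    intro k
    rw [hr, Polynomial.eval_comp]
    simp
  have hlim : Tendsto (fun k : ℕ => r.eval (k : ℝ) / 2 ^ k) atTop (𝓝 0) := by
    have h1 : (fun k : ℕ => r.eval (k : ℝ) / 2 ^ k) =
        fun k : ℕ => ∑ i ∈ range (r.natDegree + 1), r.coeff i * ((k : ℝ) ^ i / 2 ^ k) := by
      funext k
      rw [Polynomial.eval_eq_sum_range, Finset.sum_div]
      refine Finset.sum_congr rfl fun i _ => ?_
      ring
    rw [h1]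
    have h2 : (0 : ℝ) = ∑ i ∈ range (r.natDegree + 1), r.coeff i * 0 := by simp
    rw [h2]
    refine tendsto_finset_sum _ fun i _ => Tendsto.const_mul _ ?_
    exact tendsto_pow_const_div_const_pow_of_one_lt i (by norm_num)
  have h3 := (hlim.eventually (gt_mem_nhds (show (0 : ℝ) < 1 by norm_num))).and
    (eventually_ge_atTop 1)
  obtain ⟨k, h4, h5⟩ := h3.exists
  refine ⟨k, h5, ?_⟩
  rw [hev]
  rwa [div_lt_one (by positivity)] at h4

end Pool.Agent.Q226.OO
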