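import Pool.Agent.Q226.OO.Cfg

/-! The configurations. -/

set_option autoImplicit false

open Finset

namespace Pool.Agent.Q226.OO

/-- low blocks, then a block `{c₁, c₂, c₃}`, then high blocks -/
def U (k i₀ c₁ c₂ c₃ : ℕ) (i : ℕ) : Prop :=
  (i / 7 < k ∧ i / 7 < i₀ ∧ (i % 7 = 1 ∨ i % 7 = 4)) ∨
  (i / 7 < k ∧ i / 7 = i₀ ∧ (i % 7 = c₁ ∨ i % 7 = c₂ ∨ i % 7 = c₃)) ∨
  (i / 7 < k ∧ i₀ < i / 7 ∧ (i % 7 = 3 ∨ i % 7 = 6))

/-- high blocks, then a block `{c₁, c₂}`, then low blocks, and the last place -/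
def V (k i₀ c₁ c₂ : ℕ) (i : ℕ) : Prop :=
  (i / 7 < k ∧ i / 7 < i₀ ∧ (i % 7 = 3 ∨ i % 7 = 6)) ∨
  (i / 7 < k ∧ i / 7 = i₀ ∧ (i % 7 = c₁ ∨ i % 7 = c₂)) ∨
  (i / 7 < k ∧ i₀ < i / 7 ∧ (i % 7 = 1 ∨ i % 7 = 4)) ∨ i = 7 * k + 1

/-- low blocks, and possibly the place before the last one -/
def L (k : ℕ) (b : Bool) (i : ℕ) : Prop :=
  (i / 7 < k ∧ (i % 7 = 1 ∨ i % 7 = 4)) ∨ (b = true ∧ i = 7 * k)

lemma gaps_U {k i₀ c₁ c₂ c₃ : ℕ} (h1 : c₁ ≤ 6) (h2 : c₂ ≤ 6) (h3 : c₃ ≤ 6)
    (h12 : c₁ = c₂ ∨ c₁ + 3 ≤ c₂) (h23 : c₂ = c₃ ∨ c₂ + 3 ≤ c₃) : Gaps k (U k i₀ c₁ c₂ c₃) := by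
  intro i hi hm
  refine ⟨fun h h' => ?_, fun h h' => ?_, fun h => ⟨fun h' => ?_, fun h' => ?_⟩, fun h h' => ?_⟩
  · unfold U at hm h'
    omega
  · unfold U at hm h'
    omega
  · unfold U at hm h'
    omega
  · unfold U at hm h'
    omega
  · unfold U at hm h'
    omega

lemma gaps_V {k i₀ c₁ c₂ : ℕ} (h1 : c₁ ≤ 5) (h2 : c₂ ≤ 5) (h1' : 2 ≤ c₁) (h2' : 2 ≤ c₂)
    (h12 : c₁ = c₂ ∨ c₁ + 3 ≤ c₂) (hi₀ : i₀ < k) : Gaps k (V k i₀ c₁ c₂) := by
  intro i hi hm
  refine ⟨fun h h' => ?_, fun h h' => ?_, fun h => ⟨fun h' => ?_, fun h' => ?_⟩, fun h h' => ?_⟩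
  · unfold V at hm h'
    omega
  · unfold V at hm h'
    omega
  · unfold V at hm h'
    omega
  · unfold V at hm h'
    omega
  · unfold V at hm h'
    omega

lemma gaps_L {k : ℕ} (b : Bool) (hk : 1 ≤ k) : Gaps k (L k b) := by
  intro i hi hm
  refine ⟨fun h h' => ?_, fun h h' => ?_, fun h => ⟨fun h' => ?_, fun h' => ?_⟩, fun h h' => ?_⟩
  · unfold L at hm h'
    omega
  · unfold L at hm h'
    omega
  · unfold L at hm h'
    omega
  · unfold L at hm h'
    omega
  · unfold L at hm h'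
    omega

open Classical in
/-- the value of a block -/
noncomputable def W (A : ℕ → Prop) (b : Bool) : ℝ :=
  (if A 1 then 1 else 0) + (if A 3 then 1 else 0) + (if A 4 then 1 else 0) +
    (if A 6 then 1 else 0) + (if A (if b = true then 2 else 5) then 1 else 0)

lemma lT_vec (k : ℕ) (s : ℕ → Bool) (m : ℕ → Prop) [DecidablePred m] :
    lT k s (vec k m) = ∑ j ∈ range k, W (fun a => m (7 * j + a)) (s j) +
      (if m (7 * k + 1) then 1 else 0) := by
  classical
  rw [lT_apply]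
  congr 1
  · refine Finset.sum_congr rfl fun j hj => ?_
    rw [Finset.mem_range] at hj
    unfold W
    rw [vec_cast m (by omega), vec_cast m (by omega), vec_cast m (by omega),
      vec_cast m (by omega)]
    cases s j
    · simp only [Bool.false_eq_true, if_false]
      rw [vec_cast m (by omega)]
      congr
    · simp only [if_true]
      rw [vec_cast m (by omega)]
      congr
  · rw [vec_cast m (by omega)]

lemma W_congr {A B : ℕ → Prop} (h : ∀ a < 7, A a ↔ B a) (b : Bool) : W A b = W B b := by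
  classical
  unfold W
  have h1 := h 1 (by norm_num)
  have h3 := h 3 (by norm_num)
  have h4 := h 4 (by norm_num)
  have h6 := h 6 (by norm_num)
  have h2 := h (if b = true then 2 else 5) (by split_ifs <;> norm_num)
  simp only [h1, h3, h4, h6, h2]

lemma W_low (b : Bool) : W (fun a => a = 1 ∨ a = 4) b = 2 := by
  cases b <;> simp [W] <;> norm_num

lemma W_high (b : Bool) : W (fun a => a = 3 ∨ a = 6) b = 2 := by
  cases b <;> simp [W] <;> norm_num

lemma sum_two {k i₀ : ℕ} (hi₀ : i₀ < k) (f : ℕ → ℝ) (w : ℝ) (h : ∀ j < k, j ≠ i₀ → f j = 2)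
    (hw : f i₀ = w) : ∑ j ∈ range k, f j = 2 * k - 2 + w := by
  rw [← Finset.add_sum_erase _ _ (Finset.mem_range.mpr hi₀), hw]
  have : ∑ x ∈ (range k).erase i₀, f x = ∑ x ∈ (range k).erase i₀, (2 : ℝ) :=
    Finset.sum_congr rfl fun x hx => h x (Finset.mem_range.mp (Finset.mem_of_mem_erase hx))
      (Finset.ne_of_mem_erase hx)
  rw [this, Finset.sum_const, Finset.card_erase_of_mem (Finset.mem_range.mpr hi₀),
    Finset.card_range, nsmul_eq_mul, Nat.cast_sub (by omega), Nat.cast_one]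
  ring

lemma lT_U {k i₀ : ℕ} (s : ℕ → Bool) (c₁ c₂ c₃ : ℕ) (hi₀ : i₀ < k) :
    lT k s (vec k (U k i₀ c₁ c₂ c₃)) =
      2 * k - 2 + W (fun a => a = c₁ ∨ a = c₂ ∨ a = c₃) (s i₀) := by
  classical
  rw [lT_vec]
  have h0 : ¬ U k i₀ c₁ c₂ c₃ (7 * k + 1) := by
    unfold U
    omega
  rw [if_neg h0, add_zero]
  refine sum_two hi₀ _ _ (fun j hj hji => ?_) ?_
  · rcases lt_or_gt_of_ne hji with h | h
    · rw [← W_low (s j)]
      refine W_congr (fun a ha => ?_) _
      unfold U
      omega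
    · rw [← W_high (s j)]
      refine W_congr (fun a ha => ?_) _
      unfold U
      omega
  · refine W_congr (fun a ha => ?_) _
    unfold U
    omega

lemma lT_V {k i₀ : ℕ} (s : ℕ → Bool) (c₁ c₂ : ℕ) (hi₀ : i₀ < k) :
    lT k s (vec k (V k i₀ c₁ c₂)) = 2 * k - 1 + W (fun a => a = c₁ ∨ a = c₂) (s i₀) := by
  classical
  rw [lT_vec]
  have h0 : V k i₀ c₁ c₂ (7 * k + 1) := by
    unfold V
    omega
  rw [if_pos h0]
  have : ∑ j ∈ range k, W (fun a => V k i₀ c₁ c₂ (7 * j + a)) (s j) =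
      2 * k - 2 + W (fun a => a = c₁ ∨ a = c₂) (s i₀) := by
    refine sum_two hi₀ _ _ (fun j hj hji => ?_) ?_
    · rcases lt_or_gt_of_ne hji with h | h
      · rw [← W_high (s j)]
        refine W_congr (fun a ha => ?_) _
        unfold V
        omega
      · rw [← W_low (s j)]
        refine W_congr (fun a ha => ?_) _
        unfold V
        omega
    · refine W_congr (fun a ha => ?_) _
      unfold V
      omega
  rw [this]
  ring

lemma lT_L {k : ℕ} (s : ℕ → Bool) (b : Bool) : lT k s (vec k (L k b)) = 2 * k := by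
  classical
  rw [lT_vec]
  have h0 : ¬ L k b (7 * k + 1) := by
    unfold L
    omega
  rw [if_neg h0, add_zero]
  have : ∑ j ∈ range k, W (fun a => L k b (7 * j + a)) (s j) = ∑ j ∈ range k, (2 : ℝ) := by
    refine Finset.sum_congr rfl fun j hj => ?_
    rw [Finset.mem_range] at hj
    rw [← W_low (s j)]
    refine W_congr (fun a ha => ?_) _
    unfold L
    omega
  rw [this, Finset.sum_const, Finset.card_range, nsmul_eq_mul]
  ring

/-- the points on the face -/
def Tight (k : ℕ) (s : ℕ → Bool) (y : ZMod (7 * k + 2) → ℝ) : Prop :=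
  Stab (7 * k + 2) y ∧ lT k s y = 2 * k

lemma tight_U {k i₀ c₁ c₂ c₃ : ℕ} (s : ℕ → Bool) (hi₀ : i₀ < k) (h1 : c₁ ≤ 6) (h2 : c₂ ≤ 6)
    (h3 : c₃ ≤ 6) (h12 : c₁ = c₂ ∨ c₁ + 3 ≤ c₂) (h23 : c₂ = c₃ ∨ c₂ + 3 ≤ c₃)
    (hW : W (fun a => a = c₁ ∨ a = c₂ ∨ a = c₃) (s i₀) = 2) :
    Tight k s (vec k (U k i₀ c₁ c₂ c₃)) := by
  refine ⟨stab_vec (gaps_U h1 h2 h3 h12 h23) ⟨7 * i₀ + c₁, by omega, ?_⟩ (by omega), ?_⟩
  · unfold U
    omega
  · rw [lT_U s c₁ c₂ c₃ hi₀, hW]
    ring

lemma tight_V {k i₀ c₁ c₂ : ℕ} (s : ℕ → Bool) (hi₀ : i₀ < k) (h1 : c₁ ≤ 5) (h2 : c₂ ≤ 5)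
    (h1' : 2 ≤ c₁) (h2' : 2 ≤ c₂) (h12 : c₁ = c₂ ∨ c₁ + 3 ≤ c₂)
    (hW : W (fun a => a = c₁ ∨ a = c₂) (s i₀) = 1) : Tight k s (vec k (V k i₀ c₁ c₂)) := by
  refine ⟨stab_vec (gaps_V h1 h2 h1' h2' h12 hi₀) ⟨7 * i₀ + c₁, by omega, ?_⟩ (by omega), ?_⟩
  · unfold V
    omega
  · rw [lT_V s c₁ c₂ hi₀, hW]
    ring

lemma tight_L {k : ℕ} (s : ℕ → Bool) (b : Bool) (hk : 1 ≤ k) : Tight k s (vec k (L k b)) := by
  refine ⟨stab_vec (gaps_L b hk) ⟨1, by omega, ?_⟩ hk, lT_L s b⟩
  unfold L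
  omega

section span

variable {k : ℕ} {s : ℕ → Bool} (D : Submodule ℝ (ZMod (7 * k + 2) → ℝ))
  (hD : ∀ y y', Tight k s y → Tight k s y' → y - y' ∈ D)

include hD

/-- exchange of two places -/
lemma rel_of {m m' m0 : ℕ → Prop} {a b : ℕ} (ha : a < 7 * k + 2) (hb : b < 7 * k + 2)
    (hma : ¬ m0 a) (hmb : ¬ m0 b) (h : ∀ i < 7 * k + 2, m i ↔ m0 i ∨ i = a)
    (h' : ∀ i < 7 * k + 2, m' i ↔ m0 i ∨ i = b) (ht : Tight k s (vec k m))
    (ht' : Tight k s (vec k m')) : E k a - E k b ∈ D := by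
  have h1 := hD _ _ ht ht'
  rw [vec_insert ha hma h, vec_insert hb hmb h'] at h1
  have : vec k m0 + E k a - (vec k m0 + E k b) = E k a - E k b := by abel
  rwa [this] at h1

/-- insertion of a place -/
lemma ins_of {m m0 : ℕ → Prop} {a : ℕ} (ha : a < 7 * k + 2) (hma : ¬ m0 a)
    (h : ∀ i < 7 * k + 2, m i ↔ m0 i ∨ i = a) (ht : Tight k s (vec k m))
    (ht' : Tight k s (vec k m0)) : E k a ∈ D := by
  have h1 := hD _ _ ht ht'
  rw [vec_insert ha hma h] at h1
  have : vec k m0 + E k a - vec k m0 = E k a := by abel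
  rwa [this] at h1

lemma d46 {i : ℕ} (hi : i < k) : E k (7 * i + 4) - E k (7 * i + 6) ∈ D := by
  refine rel_of D hD (m := U k i 1 4 4) (m' := U k i 1 6 6) (m0 := U k i 1 1 1)
    (by omega) (by omega) ?_ ?_ (fun j hj => ?_) (fun j hj => ?_)
    (tight_U s hi (by omega) (by omega) (by omega) (by omega) (by omega) ?_)
    (tight_U s hi (by omega) (by omega) (by omega) (by omega) (by omega) ?_)
  · unfold U; omega
  · unfold U; omega
  · unfold U; omega
  · unfold U; omega
  · cases s i <;> simp [W] <;> norm_num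
  · cases s i <;> simp [W] <;> norm_num

lemma d13 {i : ℕ} (hi : i < k) : E k (7 * i + 1) - E k (7 * i + 3) ∈ D := by
  refine rel_of D hD (m := U k i 1 6 6) (m' := U k i 3 6 6) (m0 := U k i 6 6 6)
    (by omega) (by omega) ?_ ?_ (fun j hj => ?_) (fun j hj => ?_)
    (tight_U s hi (by omega) (by omega) (by omega) (by omega) (by omega) ?_)
    (tight_U s hi (by omega) (by omega) (by omega) (by omega) (by omega) ?_)
  · unfold U; omega
  · unfold U; omega
  · unfold U; omega
  · unfold U; omega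
  · cases s i <;> simp [W] <;> norm_num
  · cases s i <;> simp [W] <;> norm_num

lemma d34 {i : ℕ} (hi : i < k) : E k (7 * i + 3) - E k (7 * i + 4) ∈ D := by
  refine rel_of D hD (m := V k i 3 3) (m' := V k i 4 4) (m0 := V k i 7 7)
    (by omega) (by omega) ?_ ?_ (fun j hj => ?_) (fun j hj => ?_)
    (tight_V s hi (by omega) (by omega) (by omega) (by omega) (by omega) ?_)
    (tight_V s hi (by omega) (by omega) (by omega) (by omega) (by omega) ?_)
  · unfold V; omega
  · unfold V; omega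
  · unfold V; omega
  · unfold V; omega
  · cases s i <;> simp [W]
  · cases s i <;> simp [W]

lemma d54 {i : ℕ} (hi : i < k) (hs : s i = false) : E k (7 * i + 5) - E k (7 * i + 4) ∈ D := by
  refine rel_of D hD (m := U k i 1 5 5) (m' := U k i 1 4 4) (m0 := U k i 1 1 1)
    (by omega) (by omega) ?_ ?_ (fun j hj => ?_) (fun j hj => ?_)
    (tight_U s hi (by omega) (by omega) (by omega) (by omega) (by omega) ?_)
    (tight_U s hi (by omega) (by omega) (by omega) (by omega) (by omega) ?_)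
  · unfold U; omega
  · unfold U; omega
  · unfold U; omega
  · unfold U; omega
  · rw [hs]; simp [W]; norm_num
  · rw [hs]; simp [W]; norm_num

lemma d23 {i : ℕ} (hi : i < k) (hs : s i = true) : E k (7 * i + 2) - E k (7 * i + 3) ∈ D := by
  refine rel_of D hD (m := U k i 2 6 6) (m' := U k i 3 6 6) (m0 := U k i 6 6 6)
    (by omega) (by omega) ?_ ?_ (fun j hj => ?_) (fun j hj => ?_)
    (tight_U s hi (by omega) (by omega) (by omega) (by omega) (by omega) ?_)
    (tight_U s hi (by omega) (by omega) (by omega) (by omega) (by omega) ?_)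
  · unfold U; omega
  · unfold U; omega
  · unfold U; omega
  · unfold U; omega
  · rw [hs]; simp [W]; norm_num
  · rw [hs]; simp [W]; norm_num

lemma d_last (hk : 1 ≤ k) : E k (7 * 0 + 1) - E k (7 * k + 1) ∈ D := by
  refine rel_of D hD (m := L k false) (m' := V k 0 4 4)
    (m0 := fun i => i / 7 < k ∧ (i % 7 = 1 ∨ i % 7 = 4) ∧ i ≠ 1)
    (by omega) (by omega) ?_ ?_ (fun j hj => ?_) (fun j hj => ?_) (tight_L s false hk)
    (tight_V s hk (by omega) (by omega) (by omega) (by omega) (by omega) ?_)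
  · omega
  · omega
  · unfold L
    simp only [Bool.false_eq_true, false_and, or_false]
    omega
  · unfold V; omega
  · cases s 0 <;> simp [W]

lemma d0 {i : ℕ} (hi : i < k) : E k (7 * i) ∈ D := by
  refine ins_of D hD (m := U k i 0 3 6) (m0 := U k i 3 6 6) (by omega) ?_ (fun j hj => ?_)
    (tight_U s hi (by omega) (by omega) (by omega) (by omega) (by omega) ?_)
    (tight_U s hi (by omega) (by omega) (by omega) (by omega) (by omega) ?_)
  · unfold U; omega
  · unfold U; omega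
  · cases s i <;> simp [W] <;> norm_num
  · cases s i <;> simp [W] <;> norm_num

lemma d2 {i : ℕ} (hi : i < k) (hs : s i = false) : E k (7 * i + 2) ∈ D := by
  refine ins_of D hD (m := V k i 2 5) (m0 := V k i 5 5) (by omega) ?_ (fun j hj => ?_)
    (tight_V s hi (by omega) (by omega) (by omega) (by omega) (by omega) ?_)
    (tight_V s hi (by omega) (by omega) (by omega) (by omega) (by omega) ?_)
  · unfold V; omega
  · unfold V; omega
  · rw [hs]; simp [W]
  · rw [hs]; simp [W]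

lemma d5 {i : ℕ} (hi : i < k) (hs : s i = true) : E k (7 * i + 5) ∈ D := by
  refine ins_of D hD (m := V k i 2 5) (m0 := V k i 2 2) (by omega) ?_ (fun j hj => ?_)
    (tight_V s hi (by omega) (by omega) (by omega) (by omega) (by omega) ?_)
    (tight_V s hi (by omega) (by omega) (by omega) (by omega) (by omega) ?_)
  · unfold V; omega
  · unfold V; omega
  · rw [hs]; simp [W]
  · rw [hs]; simp [W]

lemma d_tail (hk : 1 ≤ k) : E k (7 * k) ∈ D := by
  refine ins_of D hD (m := L k true) (m0 := L k false) (by omega) ?_ (fun j hj => ?_)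
    (tight_L s true hk) (tight_L s false hk)
  · unfold L
    simp
  · unfold L
    simp

lemma d_next {i : ℕ} (hi : i + 1 < k) : E k (7 * i + 6) - E k (7 * (i + 1) + 1) ∈ D := by
  obtain ⟨m0, hm0⟩ : ∃ m0 : ℕ → Prop, m0 = fun j => V k i 3 3 j ∧ j ≠ 7 * (i + 1) + 1 ∧
    j ≠ 7 * (i + 1) + 4 := ⟨_, rfl⟩
  have h1 : vec k (V k i 3 3) = vec k (fun j => m0 j ∨ j = 7 * (i + 1) + 1) +
      E k (7 * (i + 1) + 4) := by
    refine vec_insert (by omega) ?_ fun j hj => ?_
    · rw [hm0]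
      unfold V
      omega
    · rw [hm0]
      unfold V
      omega
  have h2 : vec k (fun j => m0 j ∨ j = 7 * (i + 1) + 1) = vec k m0 + E k (7 * (i + 1) + 1) := by
    refine vec_insert (by omega) ?_ fun j hj => Iff.rfl
    rw [hm0]
    simp
  have h3 : vec k (V k (i + 1) 3 3) = vec k (fun j => m0 j ∨ j = 7 * i + 6) +
      E k (7 * (i + 1) + 3) := by
    refine vec_insert (by omega) ?_ fun j hj => ?_
    · rw [hm0]
      unfold V
      omega
    · rw [hm0]
      unfold V
      omega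
  have h4 : vec k (fun j => m0 j ∨ j = 7 * i + 6) = vec k m0 + E k (7 * i + 6) := by
    refine vec_insert (by omega) ?_ fun j hj => Iff.rfl
    rw [hm0]
    unfold V
    omega
  have h5 := hD _ _ (tight_V (c₁ := 3) (c₂ := 3) s hi (by omega) (by omega) (by omega) (by omega)
    (by omega) (by cases s (i + 1) <;> simp [W]))
    (tight_V (c₁ := 3) (c₂ := 3) s (show i < k by omega) (by omega) (by omega) (by omega)
    (by omega) (by omega) (by cases s i <;> simp [W]))
  have h6 := d34 D hD hi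
  rw [h3, h4, h1, h2] at h5
  have h7 := D.sub_mem h5 h6
  have e : vec k m0 + E k (7 * i + 6) + E k (7 * (i + 1) + 3) -
      (vec k m0 + E k (7 * (i + 1) + 1) + E k (7 * (i + 1) + 4)) -
      (E k (7 * (i + 1) + 3) - E k (7 * (i + 1) + 4)) =
      E k (7 * i + 6) - E k (7 * (i + 1) + 1) := by abel
  rwa [e] at h7

/-- all places of the support are connected -/
lemma conn (hk : 1 ≤ k) : ∀ i < 7 * k + 2, inT k s i → E k i - E k (7 * k + 1) ∈ D := by
  have tr : ∀ {a b c : ℕ}, E k a - E k b ∈ D → E k b - E k c ∈ D → E k a - E k c ∈ D := by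
    intro a b c h1 h2
    have := D.add_mem h1 h2
    rwa [sub_add_sub_cancel] at this
  have sy : ∀ {a b : ℕ}, E k a - E k b ∈ D → E k b - E k a ∈ D := by
    intro a b h
    have := D.neg_mem h
    rwa [neg_sub] at this
  have h1 : ∀ i < k, E k (7 * i + 1) - E k (7 * k + 1) ∈ D := by
    intro i
    induction i with
    | zero => intro _; exact d_last D hD hk
    | succ i ih =>
      intro hi
      have hi' : i < k := by omega
      have a1 := d13 D hD hi'
      have a2 := d34 D hD hi'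
      have a3 := d46 D hD hi'
      have a4 := d_next D hD hi
      exact tr (sy (tr (tr (tr a1 a2) a3) a4)) (ih hi')
  intro i hi hT
  unfold inT at hT
  rcases hT with ⟨hb, hT⟩ | hT
  · obtain ⟨j, hj⟩ : ∃ j, j = i / 7 := ⟨_, rfl⟩
    rw [← hj] at hb hT
    have a0 := h1 j hb
    have a1 := d13 D hD hb
    have a2 := d34 D hD hb
    have a3 := d46 D hD hb
    rcases hT with h | h | h | h | ⟨h, hs⟩ | ⟨h, hs⟩
    · have e : i = 7 * j + 1 := by omega
      rw [e]
      exact a0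
    · have e : i = 7 * j + 3 := by omega
      rw [e]
      exact tr (sy a1) a0
    · have e : i = 7 * j + 4 := by omega
      rw [e]
      exact tr (sy (tr a1 a2)) a0
    · have e : i = 7 * j + 6 := by omega
      rw [e]
      exact tr (sy (tr (tr a1 a2) a3)) a0
    · have e : i = 7 * j + 5 := by omega
      rw [e]
      exact tr (d54 D hD hb hs) (tr (sy (tr a1 a2)) a0)
    · have e : i = 7 * j + 2 := by omega
      rw [e]
      exact tr (d23 D hD hb hs) (tr (sy a1) a0)
  · rw [hT, sub_self]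
    exact D.zero_mem

/-- the other places -/
lemma other (hk : 1 ≤ k) : ∀ i < 7 * k + 2, ¬ inT k s i → E k i ∈ D := by
  intro i hi hT
  by_cases hb : i / 7 < k
  · obtain ⟨j, hj⟩ : ∃ j, j = i / 7 := ⟨_, rfl⟩
    have hjk : j < k := by omega
    rcases Bool.eq_false_or_eq_true (s (i / 7)) with hs | hs
    · have hs' : s j = true := by rw [hj]; exact hs
      have h2 : i = 7 * j ∨ i = 7 * j + 5 := by
        unfold inT at hT
        simp only [hs] at hT
        simp at hT
        omega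
      rcases h2 with h2 | h2
      · rw [h2]
        exact d0 D hD hjk
      · rw [h2]
        exact d5 D hD hjk hs'
    · have hs' : s j = false := by rw [hj]; exact hs
      have h2 : i = 7 * j ∨ i = 7 * j + 2 := by
        unfold inT at hT
        simp only [hs] at hT
        simp at hT
        omega
      rcases h2 with h2 | h2
      · rw [h2]
        exact d0 D hD hjk
      · rw [h2]
        exact d2 D hD hjk hs'
  · have : i = 7 * k := by
      unfold inT at hT
      omega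
    rw [this]
    exact d_tail D hD hk

end span

end Pool.Agent.Q226.OO
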