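import Pool.Agent.Q226.OO.Defs

/-! Short on-intervals: stable sets. -/

set_option autoImplicit false

open Finset

namespace Pool.Agent.Q226.OO

variable {n : ℕ}

/-- the 0/1-vectors with gaps at least three -/
def Stab (n : ℕ) (y : ZMod n → ℝ) : Prop :=
  (∀ t, y t = 0 ∨ y t = 1) ∧ (∀ t, y t = 1 → y (t + 1) = 0 ∧ y (t + 2) = 0) ∧ ∃ t, y t = 1

lemma stab_of_mem (hn : 3 ≤ n) {v : Pair n} (hv : v ∈ OnOff n (cst n hn)) :
    v.2 = v.1 ∧ Stab n v.1 := by
  have _ : NeZero n := ⟨by omega⟩
  obtain ⟨h01, hs1, hs2, h⟩ := hv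
  have hcast : ∀ t : ZMod n, ((t.val : ℕ) : ZMod n) = t := fun t => ZMod.natCast_zmod_val t
  -- no two consecutive ones
  have hcon : ∀ t, v.1 t = 1 → v.1 (t - 1) = 0 := by
    intro t ht
    by_contra hne
    have h1 : v.1 (t - 1) = 1 := (h01 (t - 1)).1.resolve_left hne
    have hall : ∀ j : ℕ, v.1 (t - j) = 1 ∧ v.1 (t - j - 1) = 1 := by
      intro j
      induction j with
      | zero => simpa using ⟨ht, h1⟩
      | succ j ih =>
        obtain ⟨a, b⟩ := ih
        have e1 : t - ((j + 1 : ℕ) : ZMod n) = t - j - 1 := by push_cast; ring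
        rw [e1]
        refine ⟨b, ?_⟩
        by_contra hne2
        have h2 : v.1 (t - j - 1 - 1) = 0 := (h01 _).1.resolve_right hne2
        obtain ⟨-, i, hi1, hi2, hi3⟩ := (h (t - j - 1)).2.1 (by rw [b, h2]; norm_num)
        have hi : i = 1 := le_antisymm hi2 hi1
        subst hi
        have e2 : t - (j : ZMod n) - 1 + ((1 : ℕ) : ZMod n) = t - j := by push_cast; ring
        rw [e2, a] at hi3
        norm_num at hi3
    have hone : ∀ r, v.1 r = 1 := by
      intro r
      have := (hall (t - r).val).1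
      rw [hcast] at this
      simpa using this
    have : ∑ t ∈ range n, v.1 (t : ZMod n) = n := by
      rw [Finset.sum_congr rfl fun t _ => hone _]
      simp
    rw [this] at hs2
    linarith
  refine ⟨?_, fun t => (h01 t).1, ?_, ?_⟩
  · funext t
    have h1 := (h t).1
    rcases (h01 t).1 with a | a
    · rcases (h01 t).2 with b | b
      · rw [a, b]
      · have := (h1.mp b).2
        rw [a] at this
        norm_num at this
    · rw [a]
      exact h1.mpr ⟨hcon t a, a⟩
  · intro t ht
    obtain ⟨-, i, hi1, hi2, hi3⟩ := (h t).2.1 (by rw [ht, hcon t ht]; norm_num)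
    have hi : i = 1 := le_antisymm hi2 hi1
    subst hi
    have h0 : v.1 (t + 1) = 0 := by simpa using hi3
    refine ⟨h0, ?_⟩
    have e1 : t + 1 - 1 = t := by ring
    have h2 := (h (t + 1)).2.2 (by rw [e1, ht, h0]; norm_num)
    have h3 := h2.1 1 (by show 1 ≤ 2 - 1; norm_num)
    have e2 : t + 1 + ((1 : ℕ) : ZMod n) = t + 2 := by push_cast; ring
    rwa [e2] at h3
  · by_contra hno
    push Not at hno
    have : ∑ t ∈ range n, v.1 (t : ZMod n) = 0 := by
      rw [Finset.sum_congr rfl fun t _ => (h01 _).1.resolve_right (hno _)]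
      simp
    rw [this] at hs1
    linarith

lemma mem_of_stab (hn : 3 ≤ n) {y : ZMod n → ℝ} (hy : Stab n y) :
    ((y, y) : Pair n) ∈ OnOff n (cst n hn) := by
  have _ : NeZero n := ⟨by omega⟩
  obtain ⟨h01, hst, t0, ht0⟩ := hy
  have hcast : ∀ t : ZMod n, ((t.val : ℕ) : ZMod n) = t := fun t => ZMod.natCast_zmod_val t
  have hpred : ∀ t, y t = 1 → y (t - 1) = 0 := by
    intro t ht
    rcases h01 (t - 1) with a | a
    · exact a
    · have := (hst _ a).1
      rw [sub_add_cancel, ht] at this
      norm_num at this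
  have hnn : ∀ t, 0 ≤ y t := fun t => by rcases h01 t with a | a <;> rw [a] <;> norm_num
  have hle : ∀ t, y t ≤ 1 := fun t => by rcases h01 t with a | a <;> rw [a] <;> norm_num
  refine ⟨fun t => ⟨h01 t, h01 t⟩, ?_, ?_, ?_⟩
  · have := Finset.single_le_sum (f := fun t : ℕ => y (t : ZMod n)) (s := range n)
      (fun t _ => hnn _) (Finset.mem_range.mpr (ZMod.val_lt t0))
    rw [hcast, ht0] at this
    exact this
  · have h0 : y (((t0 + 1).val : ℕ) : ZMod n) = 0 := by rw [hcast]; exact (hst t0 ht0).1
    have hmem : (t0 + 1).val ∈ range n := Finset.mem_range.mpr (ZMod.val_lt _)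
    show ∑ t ∈ range n, y (t : ZMod n) ≤ n - 1
    rw [← Finset.add_sum_erase _ _ hmem, h0, zero_add]
    have h1 : ∑ x ∈ (range n).erase (t0 + 1).val, y (x : ZMod n) ≤
        ∑ x ∈ (range n).erase (t0 + 1).val, (1 : ℝ) := Finset.sum_le_sum fun x _ => hle _
    refine h1.trans (le_of_eq ?_)
    rw [Finset.sum_const, Finset.card_erase_of_mem hmem, Finset.card_range, nsmul_eq_mul, mul_one,
      Nat.cast_sub (by omega), Nat.cast_one]
  · intro t
    refine ⟨⟨fun h => ⟨hpred t h, h⟩, fun h => h.2⟩, fun h => ?_, fun h => ?_⟩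
    · have ht : y t = 1 := by
        have h' : y t - y (t - 1) = 1 := h
        have := hnn (t - 1)
        have := hle t
        linarith
      refine ⟨fun i hi => ?_, 1, le_rfl, le_rfl, ?_⟩
      · have hi0 : i = 0 := by
          have : i ≤ 1 - 1 := hi
          omega
        subst hi0
        simpa using ht
      · simpa using (hst t ht).1
    · have ht : y (t - 1) = 1 := by
        have h' : y (t - 1) - y t = 1 := h
        have := hnn t
        have := hle (t - 1)
        linarith
      obtain ⟨a, b⟩ := hst _ ht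
      rw [sub_add_cancel] at a
      have e1 : t - 1 + 2 = t + 1 := by ring
      rw [e1] at b
      refine ⟨fun i hi => ?_, n - 1, ?_, le_rfl, ?_⟩
      · have hi2 : i ≤ 1 := hi
        interval_cases i
        · simpa using a
        · simpa using b
      · show 2 ≤ n - 1
        omega
      · show y (t + ((n - 1 : ℕ) : ZMod n)) = 1
        rw [Nat.cast_sub (by omega), ZMod.natCast_self, Nat.cast_one]
        have e2 : t + (0 - 1) = t - 1 := by ring
        rw [e2]
        exact ht

end Pool.Agent.Q226.OO
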